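import Pool.Agent.MWGR.StmtsC

/-!
# Block MWGR, row KCR: crossing from `Kaba`
-/

set_option autoImplicit false

namespace Pool.Agent.MWGR.H64

open Pool.Agent.Helper14_MV Pool.Agent.Helper2_MV Pool.Agent.MVO Pool.Agent.MWL Pool.Agent.MWS
  Pool.Agent.MWH

lemma dec3 {r : List ℕ} {x a : ℕ} (h : [x, a, x].Sublist r) :
    ∃ r0 r1 r2 r3 : List ℕ, r = r0 ++ x :: (r1 ++ a :: (r2 ++ x :: r3)) := by
  obtain ⟨s0, t0, rfl, hx0, h1⟩ := List.cons_sublist_iff.1 h
  obtain ⟨s1, t1, rfl, hx1, h2⟩ := List.cons_sublist_iff.1 h1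
  have hx2 : x ∈ t1 := List.singleton_sublist.1 h2
  obtain ⟨b0, b1, rfl⟩ := List.append_of_mem hx0
  obtain ⟨c0, c1, rfl⟩ := List.append_of_mem hx1
  obtain ⟨d0, d1, rfl⟩ := List.append_of_mem hx2
  exact ⟨b0, b1 ++ c0, c1 ++ d0, d1, by simp⟩

lemma kc (η : FIC) (hk : Kaba (RR η)) (p r : List ℕ) (x a : ℕ) (h : [x, a, x].Sublist r) :
    RR η (p ++ x :: a :: r) (p ++ a :: x :: r) := by
  obtain ⟨r0, r1, r2, r3, rfl⟩ := dec3 h
  have hk' : RR η [0, 1, 2, 0, 3, 1, 4, 0] [1, 0, 2, 0, 3, 1, 4, 0] := hk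
  have h1 := hk'.sub (fun i => if i = 0 then [x] else if i = 1 then [a] else if i = 2 then r0
    else if i = 3 then r1 else r2)
  have h2 := (RR.refl (β := η) p).append (h1.append (RR.refl (β := η) r3))
  simpa [List.append_assoc] using h2

theorem kcr : KcrStmt := by
  intro η hk p r x a h
  rcases h with h | h
  · exact kc η hk p r x a h
  · exact (kc η hk p r a x h).symm

end Pool.Agent.MWGR.H64
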