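import Pool.Agent.MWGR.StmtsD
import Pool.Agent.MWGR.StmtsN

/-!
# Block MWGR, row NFS: two light letters in different order give `Es`
-/

set_option autoImplicit false

namespace Pool.Agent.MWGR.H64

open Pool.Agent.Helper14_MV Pool.Agent.Helper2_MV Pool.Agent.MVO Pool.Agent.MWL Pool.Agent.MWS
  Pool.Agent.MWH

/-- the substitution `a ↦ 1`, `b ↦ 2`, `x ↦ 0^(m x)` -/
noncomputable def sg (a b : ℕ) (R : List ℕ) (m : ℕ → ℕ) : ℕ → List ℕ := fun c =>
  if c = a then [1] else if c = b then [2] else if c ∈ R then X (m c) else []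

lemma sg_a (a b : ℕ) (R : List ℕ) (m : ℕ → ℕ) : sg a b R m a = [1] := by
  simp [sg]

lemma sg_b {a b : ℕ} (R : List ℕ) (m : ℕ → ℕ) (h : a ≠ b) : sg a b R m b = [2] := by
  simp [sg, Ne.symm h]

lemma sg_c {a b c : ℕ} (R : List ℕ) (m : ℕ → ℕ) (h : c ≠ a) (h' : c ≠ b) :
    sg a b R m c = if c ∈ R then X (m c) else [] := by
  simp [sg, h, h']

/-- the sum of the weights -/
def wt (R : List ℕ) (m : ℕ → ℕ) (l : List ℕ) : ℕ := (R.map (fun x => m x * l.count x)).sum

lemma ev (hE : EvlStmt) {a b : ℕ} {R : List ℕ} (m : ℕ → ℕ) (hR : R.Nodup) {l : List ℕ}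
    (ha : a ∉ l) (hb : b ∉ l) : l.flatMap (sg a b R m) = X (wt R m l) := by
  refine hE R m l _ hR ?_
  intro c hc
  exact sg_c R m (fun h => ha (h ▸ hc)) (fun h => hb (h ▸ hc))

/-- the pushed block with block `i` -/
lemma blk0 (hP : PbiStmt) (hE : EvlStmt) {k i J : ℕ} {f : ℕ → ℕ} {B : ℕ → List ℕ} {a b : ℕ}
    {R : List ℕ} (m : ℕ → ℕ) (hR : R.Nodup) (hi : i ≤ k) (hiJ : i < J)
    (hf : ∀ j, f j = if j < J then 0 else 1)
    (ha : ∀ j < J, j ≠ i → a ∉ B j) (hb : ∀ j < J, j ≠ i → b ∉ B j) :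
    ∃ s t : ℕ, (pshB k f B 0).flatMap (sg a b R m) =
      X s ++ ((B i).flatMap (sg a b R m) ++ X t) := by
  have hfi : f i = 0 := by rw [hf, if_pos hiJ]
  have h := hP k i f B hi
  rw [hfi] at h
  rw [h, List.flatMap_append, List.flatMap_append]
  have e1 : ∀ c : ℕ, (∀ j < J, j ≠ i → c ∉ B j) →
      c ∉ ((List.range i).filter (fun j => decide (f j = 0))).flatMap B := by
    intro c hc hm
    rw [List.mem_flatMap] at hm
    obtain ⟨j, hj, hcj⟩ := hm
    rw [List.mem_filter, List.mem_range] at hj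
    exact hc j (by omega) (by omega) hcj
  have e2 : ∀ c : ℕ, (∀ j < J, j ≠ i → c ∉ B j) →
      c ∉ ((List.range' (i + 1) (k - i)).filter (fun j => decide (f j = 0))).flatMap B := by
    intro c hc hm
    rw [List.mem_flatMap] at hm
    obtain ⟨j, hj, hcj⟩ := hm
    rw [List.mem_filter, List.mem_range', decide_eq_true_eq] at hj
    obtain ⟨⟨t, _, rfl⟩, hf0⟩ := hj
    have hlt : i + 1 + 1 * t < J := by
      by_contra hge
      rw [hf, if_neg hge] at hf0
      exact one_ne_zero hf0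
    exact hc _ hlt (by omega) hcj
  rw [ev hE m hR (e1 a ha) (e1 b hb), ev hE m hR (e2 a ha) (e2 b hb)]
  exact ⟨_, _, rfl⟩

/-- the second pushed block -/
lemma blk1 {k J : ℕ} {f : ℕ → ℕ} {B : ℕ → List ℕ} {a b : ℕ} {R : List ℕ} (m : ℕ → ℕ) (hab : a ≠ b)
    (hf : ∀ j, f j = if j < J then 0 else 1) (hx : ∀ x ∈ R, ∀ j, J ≤ j → j ≤ k → x ∉ B j)
    (ha : ∃ j, J ≤ j ∧ j ≤ k ∧ a ∈ B j) (hb : ∃ j, J ≤ j ∧ j ≤ k ∧ b ∈ B j) :
    1 ∈ (pshB k f B 1).flatMap (sg a b R m) ∧ 2 ∈ (pshB k f B 1).flatMap (sg a b R m) ∧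
      ∀ c ∈ (pshB k f B 1).flatMap (sg a b R m), c = 1 ∨ c = 2 := by
  have hf1 : ∀ j, J ≤ j → f j = 1 := by
    intro j hj
    rw [hf, if_neg (by omega)]
  refine ⟨?_, ?_, ?_⟩
  · obtain ⟨j, h1, h2, h3⟩ := ha
    rw [List.mem_flatMap]
    exact ⟨a, mem_pshB.2 ⟨j, h2, hf1 j h1, h3⟩, by rw [sg_a]; exact List.mem_singleton_self 1⟩
  · obtain ⟨j, h1, h2, h3⟩ := hb
    rw [List.mem_flatMap]
    exact ⟨b, mem_pshB.2 ⟨j, h2, hf1 j h1, h3⟩, by rw [sg_b R m hab]; exact List.mem_singleton_self 2⟩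
  · intro c hc
    rw [List.mem_flatMap] at hc
    obtain ⟨d, hd, hc⟩ := hc
    obtain ⟨j, hj, hfj, hdj⟩ := mem_pshB.1 hd
    by_cases hda : d = a
    · rw [hda, sg_a, List.mem_singleton] at hc
      exact Or.inl hc
    by_cases hdb : d = b
    · rw [hdb, sg_b R m hab, List.mem_singleton] at hc
      exact Or.inr hc
    rw [sg_c R m hda hdb] at hc
    split_ifs at hc with hdR
    · exfalso
      refine hx d hdR j ?_ hj hdj
      by_contra hlt
      rw [hf, if_pos (by omega)] at hfj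
      exact zero_ne_one hfj
    · exact absurd hc List.not_mem_nil

lemma cb_app {P Q : List ℕ} {a : ℕ} (h : a ∉ P) (x : ℕ) : cb (P ++ a :: Q) x a = P.count x := by
  have e : (P ++ a :: Q).takeWhile (fun c => decide (c ≠ a)) = P := by
    rw [List.takeWhile_append_of_pos, List.takeWhile_cons]
    · simp
    · intro c hc
      rw [decide_eq_true_eq]
      rintro rfl
      exact h hc
  unfold cb
  rw [e]

/-- two letters which occur once, `c` before `d` -/
lemma spt2 {l : List ℕ} {c d : ℕ} (hcd : c ≠ d) (hc : l.count c = 1) (hd : l.count d = 1)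
    (h : cb l c d = 1) : ∃ P Q S : List ℕ, l = P ++ c :: (Q ++ d :: S) ∧
      c ∉ P ∧ c ∉ Q ∧ c ∉ S ∧ d ∉ P ∧ d ∉ Q ∧ d ∉ S := by
  have hdl : d ∈ l := List.count_pos_iff.1 (by omega)
  obtain ⟨P2, S, rfl, hdP⟩ := List.eq_append_cons_of_mem hdl
  rw [cb_app hdP] at h
  have hcP : c ∈ P2 := List.count_pos_iff.1 (by omega)
  obtain ⟨P, Q, rfl, hcP'⟩ := List.eq_append_cons_of_mem hcP
  rw [List.mem_append, List.mem_cons, not_or, not_or] at hdP
  have e1 : (P ++ c :: Q).count c = P.count c + (Q.count c + 1) := by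
    rw [List.count_append, List.count_cons_self]
  have e2 : ((P ++ c :: Q) ++ d :: S).count c = (P ++ c :: Q).count c + S.count c := by
    rw [List.count_append, List.count_cons_of_ne (Ne.symm hcd)]
  have e3 : ((P ++ c :: Q) ++ d :: S).count d = (P ++ c :: Q).count d + (S.count d + 1) := by
    rw [List.count_append, List.count_cons_self]
  refine ⟨P, Q, S, by simp, hcP', ?_, ?_, hdP.1, hdP.2.2, ?_⟩
  · exact List.count_eq_zero.1 (by omega)
  · exact List.count_eq_zero.1 (by omega)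
  · exact List.count_eq_zero.1 (by omega)

/-- the other order -/
lemma cb_swap {l : List ℕ} {c d : ℕ} (hcd : c ≠ d) (hc : l.count c = 1) (hd : l.count d = 1)
    (h : cb l c d = 0) : cb l d c = 1 := by
  have hdl : d ∈ l := List.count_pos_iff.1 (by omega)
  obtain ⟨P, S, rfl, hdP⟩ := List.eq_append_cons_of_mem hdl
  rw [cb_app hdP] at h
  have hcP : c ∉ P := List.count_eq_zero.1 h
  have e2 : (P ++ d :: S).count c = P.count c + S.count c := by
    rw [List.count_append, List.count_cons_of_ne (Ne.symm hcd)]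
  have hcS : c ∈ S := List.count_pos_iff.1 (by omega)
  obtain ⟨Q, T, rfl, hcQ⟩ := List.eq_append_cons_of_mem hcS
  have hc' : c ∉ P ++ d :: Q := by
    rw [List.mem_append, List.mem_cons, not_or, not_or]
    exact ⟨hcP, hcd, hcQ⟩
  have e3 : P ++ d :: (Q ++ c :: T) = (P ++ d :: Q) ++ c :: T := by simp
  have e4 : (P ++ d :: (Q ++ c :: T)).count d = P.count d + (Q ++ c :: T).count d + 1 := by
    rw [List.count_append, List.count_cons_self]
    omega
  have e5 : (Q ++ c :: T).count d = Q.count d + T.count d := by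
    rw [List.count_append, List.count_cons_of_ne hcd]
  rw [e3, cb_app hc', List.count_append, List.count_cons_self]
  omega

/-- the values of a block with `a` and `b` -/
lemma fl_word (hE : EvlStmt) {a b : ℕ} {R : List ℕ} (m : ℕ → ℕ) (hR : R.Nodup) (c d : ℕ)
    {P Q S : List ℕ} (hP : a ∉ P ∧ b ∉ P) (hQ : a ∉ Q ∧ b ∉ Q) (hS : a ∉ S ∧ b ∉ S) :
    (P ++ c :: (Q ++ d :: S)).flatMap (sg a b R m) =
      X (wt R m P) ++ (sg a b R m c ++ (X (wt R m Q) ++ (sg a b R m d ++ X (wt R m S)))) := by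
  rw [List.flatMap_append, List.flatMap_cons, List.flatMap_append, List.flatMap_cons,
    ev hE m hR hP.1 hP.2, ev hE m hR hQ.1 hQ.2, ev hE m hR hS.1 hS.2]

lemma word_eq (s t p q r e f : ℕ) (L : List ℕ) :
    (X s ++ ((X p ++ ([e] ++ (X q ++ ([f] ++ X r)))) ++ X t)) ++ 3 :: L =
      X (s + p) ++ e :: (X q ++ f :: (X (r + t) ++ 3 :: L)) := by
  simp only [X, List.replicate_add, List.append_assoc, List.cons_append, List.nil_append]

lemma sum_congr_mod {n : ℕ} (R : List ℕ) (g h : ℕ → ℕ) (H : ∀ x ∈ R, g x ≡ h x [MOD n]) :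
    (R.map g).sum ≡ (R.map h).sum [MOD n] := by
  induction R with
  | nil => exact Nat.ModEq.refl _
  | cons x R ih =>
    rw [List.map_cons, List.map_cons, List.sum_cons, List.sum_cons]
    exact Nat.ModEq.add (H x List.mem_cons_self) (ih fun y hy => H y (List.mem_cons_of_mem _ hy))

theorem nfs (hL : PslStmt) (hP : PbiStmt) (hE : EvlStmt) (hN : NtsStmt) (hC : EcdStmt) :
    NfsStmt := by
  classical
  intro n k θ B B' hBG hF hr i a b hi hab hca hcb h1 h0 R hR hRx m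
  have hn : 1 ≤ n := hBG.pos
  have haB : a ∈ B i := List.count_pos_iff.1 (by omega)
  have hbB : b ∈ B i := List.count_pos_iff.1 (by omega)
  have hNa : NS k a := hF.ok.ok i hi a haB
  have hNb : NS k b := hF.ok.ok i hi b hbB
  -- the same letters
  have hmem : ∀ c, NS k c → ∀ j ≤ k, (c ∈ B j ↔ c ∈ B' j) := by
    intro c hc j hj
    have h := hF.eq c hc j hj
    unfold ty at h
    rw [← List.count_pos_iff, ← List.count_pos_iff]
    omega
  have hca' : (B' i).count a = 1 := by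
    have h := hF.eq a hNa i hi
    unfold ty at h
    omega
  have hcb' : (B' i).count b = 1 := by
    have h := hF.eq b hNb i hi
    unfold ty at h
    omega
  -- nothing before
  have hbef : ∀ c, NS k c → (B i).count c = 1 → ∀ j < i, c ∉ B j := by
    intro c hc h1 j hj hcj
    have h2 : 2 ≤ ty B c i := hF.gm c hc j i hj hi
      (by unfold ty; exact (List.count_pos_iff.2 hcj).ne') (by unfold ty; omega)
    unfold ty at h2
    omega
  -- something behind
  have hbeh : ∀ c, NS k c → (B i).count c = 1 → ∃ j, i < j ∧ j ≤ k ∧ c ∈ B j := by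
    intro c hc h1
    by_contra hno
    have h2 := hF.ok.ml i hi c (List.count_pos_iff.1 (by omega))
    have h3 : deg k (fun j => (B j).count c) = (B i).count c := by
      unfold deg
      refine Finset.sum_eq_single_of_mem i (Finset.mem_range.2 (by omega)) ?_
      intro j hj hji
      rw [Finset.mem_range] at hj
      rw [List.count_eq_zero]
      intro hcj
      rcases Nat.lt_or_gt_of_ne hji with h | h
      · exact hbef c hc h1 j h hcj
      · exact hno ⟨j, h, by omega, hcj⟩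
    omega
  obtain ⟨ja, hja1, hja2, hja3⟩ := hbeh a hNa hca
  obtain ⟨jb, hjb1, hjb2, hjb3⟩ := hbeh b hNb hcb
  -- the first block behind
  have hex : ∃ j, i < j ∧ j ≤ k ∧ (a ∈ B j ∨ b ∈ B j) := ⟨ja, hja1, hja2, Or.inl hja3⟩
  obtain ⟨J, hJ⟩ : ∃ J, J = Nat.find hex := ⟨_, rfl⟩
  obtain ⟨hJ1, hJ2, hJ3⟩ : i < J ∧ J ≤ k ∧ (a ∈ B J ∨ b ∈ B J) := by
    rw [hJ]
    exact Nat.find_spec hex
  have hJm : ∀ j, j < J → ¬ (i < j ∧ j ≤ k ∧ (a ∈ B j ∨ b ∈ B j)) := by
    intro j hj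
    rw [hJ] at hj
    exact Nat.find_min hex hj
  obtain ⟨f, hf⟩ : ∃ f : ℕ → ℕ, ∀ j, f j = if j < J then 0 else 1 := ⟨fun j => _, fun j => rfl⟩
  have hlow : ∀ c, (c = a ∨ c = b) → NS k c → (B i).count c = 1 → ∀ j < J, j ≠ i → c ∉ B j := by
    intro c hc hNc h1 j hj hji hcj
    rcases Nat.lt_or_gt_of_ne hji with h | h
    · exact hbef c hNc h1 j h hcj
    · refine hJm j hj ⟨h, by omega, ?_⟩
      rcases hc with rfl | rfl
      · exact Or.inl hcj
      · exact Or.inr hcj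
  have hla := hlow a (Or.inl rfl) hNa hca
  have hlb := hlow b (Or.inr rfl) hNb hcb
  have hla' : ∀ j < J, j ≠ i → a ∉ B' j := fun j hj hji h =>
    hla j hj hji ((hmem a hNa j (by omega)).2 h)
  have hlb' : ∀ j < J, j ≠ i → b ∉ B' j := fun j hj hji h =>
    hlb j hj hji ((hmem b hNb j (by omega)).2 h)
  have hge : ∀ c j, (c = a ∨ c = b) → i < j → j ≤ k → c ∈ B j → J ≤ j := by
    intro c j hc h1 h2 h3
    by_contra hlt
    refine hJm j (by omega) ⟨h1, h2, ?_⟩
    rcases hc with rfl | rfl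
    · exact Or.inl h3
    · exact Or.inr h3
  have hA : ∃ j, J ≤ j ∧ j ≤ k ∧ a ∈ B j := ⟨ja, hge a ja (Or.inl rfl) hja1 hja2 hja3, hja2, hja3⟩
  have hB : ∃ j, J ≤ j ∧ j ≤ k ∧ b ∈ B j := ⟨jb, hge b jb (Or.inr rfl) hjb1 hjb2 hjb3, hjb2, hjb3⟩
  have hA' : ∃ j, J ≤ j ∧ j ≤ k ∧ a ∈ B' j := by
    obtain ⟨j, h1, h2, h3⟩ := hA
    exact ⟨j, h1, h2, (hmem a hNa j h2).1 h3⟩
  have hB' : ∃ j, J ≤ j ∧ j ≤ k ∧ b ∈ B' j := by
    obtain ⟨j, h1, h2, h3⟩ := hB
    exact ⟨j, h1, h2, (hmem b hNb j h2).1 h3⟩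
  -- the letters of R
  have hRn : ∀ x ∈ R, ∀ j, J ≤ j → j ≤ k → x ∉ B j := by
    intro x hx j hj1 hj2 hxj
    obtain ⟨_, g1, g2⟩ := hRx x hx
    rcases hJ3 with h | h
    · have := g1 J j hJ1 hJ2 (by omega) hj2 h hxj
      omega
    · have := g2 J j hJ1 hJ2 (by omega) hj2 h hxj
      omega
  have hRn' : ∀ x ∈ R, ∀ j, J ≤ j → j ≤ k → x ∉ B' j := by
    intro x hx j hj1 hj2 hxj
    have hNx : NS k x := hF.ok'.ok j hj2 x hxj
    exact hRn x hx j hj1 hj2 ((hmem x hNx j hj2).2 hxj)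
  -- the push
  have hbm : BMap k 1 f := by
    refine ⟨?_, ?_⟩
    · intro j j' hjj' _
      rw [hf, hf]
      split_ifs <;> omega
    · intro j _
      rw [hf]
      split_ifs <;> omega
  have hps := hL θ k 1 1 f B B' (sg a b R m) hbm (by omega) hF.ok.ok hF.ok'.ok hr
  have hps' : RR θ ((pshB k f B 0).flatMap (sg a b R m) ++
      3 :: (pshB k f B 1).flatMap (sg a b R m)) ((pshB k f B' 0).flatMap (sg a b R m) ++
      3 :: (pshB k f B' 1).flatMap (sg a b R m)) := hps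
  obtain ⟨s, t, hst⟩ := blk0 hP hE (a := a) (b := b) (R := R) m hR hi hJ1 hf hla hlb
  obtain ⟨s', t', hst'⟩ := blk0 hP hE (a := a) (b := b) (R := R) m hR hi hJ1 hf hla' hlb'
  obtain ⟨u1, u2, u3⟩ := blk1 (R := R) m hab hf hRn hA hB
  obtain ⟨v1, v2, v3⟩ := blk1 (R := R) m hab hf hRn' hA' hB'
  obtain ⟨P, Q, S, hBi, p1, p2, p3, p4, p5, p6⟩ := spt2 hab hca hcb h1
  obtain ⟨P', Q', S', hBi', q1, q2, q3, q4, q5, q6⟩ :=
    spt2 (Ne.symm hab) hcb' hca' (cb_swap hab hca' hcb' h0)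
  rw [hst, hst', hBi, hBi', fl_word hE m hR a b ⟨p1, p4⟩ ⟨p2, p5⟩ ⟨p3, p6⟩,
    fl_word hE m hR b a ⟨q4, q1⟩ ⟨q5, q2⟩ ⟨q6, q3⟩, sg_a, sg_b R m hab, word_eq, word_eq] at hps'
  have hes := hN n θ hBG _ _ _ _ _ _ _ _ u1 u2 v1 v2 u3 v3 hps'
  have hes' : Ec n (wt R m Q) (3 :: [1, 2]) (RR θ) := hes
  refine (hC n θ hBG [1, 2] (by decide) (by decide) (by decide) (by decide)).1 _ _ ?_ hes'
  -- the residue
  refine sum_congr_mod R _ _ ?_
  intro x hx
  refine Nat.ModEq.mul_left _ ?_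
  have hxa : x ≠ a := by
    rintro rfl
    have := (hRx x hx).1
    omega
  have hxb : x ≠ b := by
    rintro rfl
    have := (hRx x hx).1
    omega
  have c1 : cb (B i) x a = P.count x := by
    rw [hBi]
    exact cb_app p1 x
  have c2 : cb (B i) x b = P.count x + Q.count x := by
    have e : B i = (P ++ a :: Q) ++ b :: S := by rw [hBi]; simp
    have hb' : b ∉ P ++ a :: Q := by
      rw [List.mem_append, List.mem_cons, not_or, not_or]
      exact ⟨p4, Ne.symm hab, p5⟩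
    rw [e, cb_app hb', List.count_append, List.count_cons_of_ne (Ne.symm hxa)]
  unfold gap
  rw [c1, c2]
  obtain ⟨N, rfl⟩ : ∃ N, n = N + 1 := ⟨n - 1, by omega⟩
  have e : 2 * (N + 1) + (N + 1 - 1) * P.count x + (P.count x + Q.count x) =
      (N + 1) * (2 + P.count x) + Q.count x := by
    rw [Nat.add_sub_cancel]
    ring
  rw [e]
  have h3 : (N + 1) * (2 + P.count x) + Q.count x ≡ 0 + Q.count x [MOD N + 1] :=
    Nat.ModEq.add_right _ ((Nat.modEq_zero_iff_dvd).2 (dvd_mul_right _ _))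
  rw [zero_add] at h3
  exact h3.symm

end Pool.Agent.MWGR.H64
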