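import Pool.Agent.MWGR.StmtsD

/-!
# Block MWGR, row NTA: the multiplicity of a letter behind a separator is made `1`
-/

set_option autoImplicit false

namespace Pool.Agent.MWGR.H64

open Pool.Agent.Helper14_MV Pool.Agent.Helper2_MV Pool.Agent.MVO Pool.Agent.MWL Pool.Agent.MWS
  Pool.Agent.MWH

/-- the substitution `t ↦ W` -/
def sb (t : ℕ) (W : List ℕ) : ℕ → List ℕ := fun i => if i = t then W else [i]

lemma sb_self (t : ℕ) (W : List ℕ) : sb t W t = W := by simp [sb]

lemma sb_ne {t i : ℕ} (W : List ℕ) (h : i ≠ t) : sb t W i = [i] := by simp [sb, h]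

lemma sb_flat {t : ℕ} (W : List ℕ) {D : List ℕ} (h : t ∉ D) : D.flatMap (sb t W) = D := by
  induction D with
  | nil => rfl
  | cons c D ih =>
    rw [List.mem_cons, not_or] at h
    rw [List.flatMap_cons, sb_ne W (fun e => h.1 e.symm), ih h.2]
    rfl

lemma sb_rep {t y : ℕ} (W : List ℕ) (h : y ≠ t) (r : ℕ) :
    (List.replicate r y).flatMap (sb t W) = List.replicate r y := by
  refine sb_flat W fun hc => h ?_
  exact (List.eq_of_mem_replicate hc).symm

/-- the substitution in a word `A y B t y^r C` -/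
lemma sb_word {t y : ℕ} (W A B C : List ℕ) (hty : y ≠ t) (hA : t ∉ A) (hB : t ∉ B) (hC : t ∉ C)
    (r : ℕ) :
    (A ++ y :: (B ++ t :: (List.replicate r y ++ C))).flatMap (sb t W) =
      A ++ y :: (B ++ (W ++ (List.replicate r y ++ C))) := by
  rw [List.flatMap_append, List.flatMap_cons, List.flatMap_append, List.flatMap_cons,
    List.flatMap_append, sb_flat W hA, sb_flat W hB, sb_flat W hC, sb_rep W hty, sb_self,
    sb_ne W hty]
  rfl

lemma fi_nil {t y : ℕ} {D : List ℕ} (hy : y ∉ D) (ht : t ∉ D) :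
    D.filter (fun c => decide (c = y ∨ c = t)) = [] := by
  rw [List.filter_eq_nil_iff]
  intro c hc h
  rw [decide_eq_true_eq] at h
  rcases h with h | h
  · exact hy (h ▸ hc)
  · exact ht (h ▸ hc)

lemma fi_rep {t y : ℕ} (r : ℕ) :
    (List.replicate r y).filter (fun c => decide (c = y ∨ c = t)) = List.replicate r y := by
  rw [List.filter_eq_self]
  intro c hc
  rw [decide_eq_true_eq]
  exact Or.inl (List.eq_of_mem_replicate hc)

lemma fi_word {t y : ℕ} {A B C : List ℕ} (hA : y ∉ A ∧ t ∉ A) (hB : y ∉ B ∧ t ∉ B)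
    (hC : y ∉ C ∧ t ∉ C) (r : ℕ) :
    (A ++ y :: (B ++ t :: (List.replicate r y ++ C))).filter (fun c => decide (c = y ∨ c = t)) =
      [y, t] ++ (List.replicate r y ++ []) := by
  have h1 : decide (y = y ∨ y = t) = true := by rw [decide_eq_true_eq]; exact Or.inl rfl
  have h2 : decide (t = y ∨ t = t) = true := by rw [decide_eq_true_eq]; exact Or.inr rfl
  rw [List.filter_append, List.filter_cons, List.filter_append, List.filter_cons,
    List.filter_append, fi_nil hA.1 hA.2, fi_nil hB.1 hB.2, fi_nil hC.1 hC.2, fi_rep, if_pos h1,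
    if_pos h2]
  rfl

theorem nta (hE : ExgStmt) : NtaStmt := by
  intro n θ hBG A B C A' B' C' y t r r' hr hr' hyt hD h
  have hn : 1 ≤ n := hBG.pos
  obtain ⟨m, hm⟩ : ∃ m, m = (n - 1) * r + 1 := ⟨_, rfl⟩
  obtain ⟨N, rfl⟩ : ∃ N, n = N + 1 := ⟨n - 1, by omega⟩
  have hmr : m + r = (N + 1) * r + 1 := by
    rw [hm, Nat.add_sub_cancel]
    ring
  have hmod : m + r ≡ 1 [MOD N + 1] := by
    rw [hmr]
    have : (N + 1) * r + 1 ≡ 0 + 1 [MOD N + 1] :=
      Nat.ModEq.add_right 1 ((Nat.modEq_zero_iff_dvd).2 (dvd_mul_right _ _))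
    rwa [zero_add] at this
  have hAm := hD A (by simp)
  have hBm := hD B (by simp)
  have hCm := hD C (by simp)
  have hA'm := hD A' (by simp)
  have hB'm := hD B' (by simp)
  have hC'm := hD C' (by simp)
  -- the substitution of the separator
  have s1 := h.sub (sb t (t :: List.replicate m y))
  rw [sb_word _ A B C hyt hAm.2 hBm.2 hCm.2, sb_word _ A' B' C' hyt hA'm.2 hB'm.2 hC'm.2] at s1
  have eq1 : ∀ (U V W : List ℕ) (s : ℕ),
      U ++ y :: (V ++ ((t :: List.replicate m y) ++ (List.replicate s y ++ W))) =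
        U ++ y :: (V ++ t :: (List.replicate (m + s) y ++ W)) := by
    intro U V W s
    simp only [List.replicate_add, List.append_assoc, List.cons_append]
  rw [eq1, eq1] at s1
  -- the left side
  have eq2 : ∀ (U V W Z : List ℕ),
      U ++ y :: (V ++ t :: (Z ++ W)) = (U ++ y :: (V ++ [t])) ++ (Z ++ W) := by
    intro U V W Z
    simp
  have l1 : RR θ (A ++ y :: (B ++ t :: (List.replicate (m + r) y ++ C)))
      (A ++ y :: (B ++ t :: (List.replicate 1 y ++ C))) := by
    rw [eq2, eq2]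
    exact (hE (N + 1) θ hBG _ C y (m + r) 1 hmod).1 (by simp) (by omega) le_rfl
  -- two letters
  have f1 := s1.filter (fun c => decide (c = y ∨ c = t))
  rw [fi_word hAm hBm hCm, fi_word hA'm hB'm hC'm] at f1
  have f2 : RR θ ([y, t] ++ (List.replicate (m + r) y ++ [])) ([y, t] ++ (List.replicate 1 y ++ [])) :=
    (hE (N + 1) θ hBG [y, t] [] y (m + r) 1 hmod).1 (by simp) (by omega) le_rfl
  have f3 : RR θ ([y, t] ++ (List.replicate 1 y ++ []))
      ([y, t] ++ (List.replicate (m + r') y ++ [])) := θ.trans (RR.symm f2) f1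
  have eq3 : ∀ s : ℕ, [y, t] ++ (List.replicate s y ++ []) =
      ([] : List ℕ) ++ y :: ([] ++ t :: (List.replicate s y ++ [])) := by
    intro s
    rfl
  rw [eq3, eq3] at f3
  have g1 := f3.sub (sb t (B' ++ [t]))
  rw [sb_word _ [] [] [] hyt (by simp) (by simp) (by simp),
    sb_word _ [] [] [] hyt (by simp) (by simp) (by simp)] at g1
  have g2 := ((RR.refl (β := θ) A').append g1).append (RR.refl (β := θ) C')
  have eq4 : ∀ s : ℕ, A' ++ ([] ++ y :: ([] ++ ((B' ++ [t]) ++ (List.replicate s y ++ [])))) ++ C' =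
      A' ++ y :: (B' ++ t :: (List.replicate s y ++ C')) := by
    intro s
    simp
  rw [eq4, eq4] at g2
  have fin1 : RR θ (A ++ y :: (B ++ t :: (List.replicate 1 y ++ C)))
      (A' ++ y :: (B' ++ t :: (List.replicate 1 y ++ C'))) :=
    θ.trans (RR.symm l1) (θ.trans s1 (RR.symm g2))
  exact fin1

end Pool.Agent.MWGR.H64
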